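import Pool.Agent.Helper19.FlagDefs
import Pool.Agent.Helper19.FlagMain

set_option autoImplicit false

namespace Pool.Agent.Results.MP_7b57dc_co.FlagGeneration

open Pool.Agent.Helper19.Flags

universe u

/-- For every `m ≥ 1` there is `d₀ ≤ 3 ⌈log₂ m⌉ + 2` such that for every field `K` and every
`d ≥ d₀` the least number `muK K m d` of vectors which suffices to generate simultaneously any
`m` complete flags in `K^d` equals `mu m d`. -/
theorem result (m : ℕ) (hm : 1 ≤ m) :
    ∃ d₀ : ℕ, d₀ ≤ 3 * Nat.clog 2 m + 2 ∧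
      ∀ (K : Type u) [Field K] (d : ℕ), d₀ ≤ d → muK K m d = mu m d :=
  flag_final m hm

end Pool.Agent.Results.MP_7b57dc_co.FlagGeneration
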